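import Mathlib

/-!
# Rainbow saturation with an unlimited palette: the triangle
-/

set_option autoImplicit false

namespace Pool.Agent.Results.MP_44a765_co.TriangleCase

open Finset

/-- The graph `G` on `V` with the edges coloured by `c` (only the values of `c` at edges matter)
contains a rainbow copy of the complete graph `K_r`: there are `r` distinct vertices, pairwise
adjacent, such that distinct pairs of them get distinct colours. -/
def HasRainbow {V : Type} (r : ℕ) (G : SimpleGraph V) (c : Sym2 V → ℕ) : Prop :=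
  ∃ f : Fin r ↪ V, (∀ i j, i ≠ j → G.Adj (f i) (f j)) ∧
    ∀ i j k l, i < j → k < l → c s(f i, f j) = c s(f k, f l) → i = k ∧ j = l

/-- `(G, c)` is `R(K_r)`-saturated: it has no rainbow `K_r`, and inserting any non-edge with any
colour produces a rainbow `K_r`. -/
def Saturated {V : Type} [DecidableEq V] (r : ℕ) (G : SimpleGraph V) (c : Sym2 V → ℕ) : Prop :=
  ¬ HasRainbow r G c ∧ ∀ u v, u ≠ v → ¬ G.Adj u v → ∀ α : ℕ,
    HasRainbow r (G ⊔ SimpleGraph.edge u v) (Function.update c s(u, v) α)

/-- The minimum number of edges of an `R(K_r)`-saturated edge-coloured graph on `n` vertices. -/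
noncomputable def sat (n r : ℕ) : ℕ :=
  sInf {m | ∃ (G : SimpleGraph (Fin n)) (c : Sym2 (Fin n) → ℕ),
    Saturated r G c ∧ G.edgeSet.ncard = m}

/-! ### The complete graph with one colour is saturated -/

theorem top_saturated (n r : ℕ) (hr : 3 ≤ r) :
    Saturated r (⊤ : SimpleGraph (Fin n)) (fun _ => 0) := by
  refine ⟨?_, fun u v huv h => absurd ((SimpleGraph.top_adj u v).2 huv) h⟩
  rintro ⟨f, -, h⟩
  have := h ⟨0, by omega⟩ ⟨1, by omega⟩ ⟨0, by omega⟩ ⟨2, by omega⟩ (by simp) (by simp) rfl
  simp at this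

theorem sat_mem (n r : ℕ) (hr : 3 ≤ r) : ∃ (G : SimpleGraph (Fin n)) (c : Sym2 (Fin n) → ℕ),
    Saturated r G c ∧ G.edgeSet.ncard = sat n r := by
  have hne : {m | ∃ (G : SimpleGraph (Fin n)) (c : Sym2 (Fin n) → ℕ),
      Saturated r G c ∧ G.edgeSet.ncard = m}.Nonempty :=
    ⟨(⊤ : SimpleGraph (Fin n)).edgeSet.ncard, ⊤, _, top_saturated n r hr, rfl⟩
  exact Nat.sInf_mem hne

theorem sat_le {n r m : ℕ} (G : SimpleGraph (Fin n)) (c : Sym2 (Fin n) → ℕ)
    (h : Saturated r G c) (hm : G.edgeSet.ncard ≤ m) : sat n r ≤ m := by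
  have hmem : G.edgeSet.ncard ∈ {m | ∃ (G : SimpleGraph (Fin n)) (c : Sym2 (Fin n) → ℕ),
      Saturated r G c ∧ G.edgeSet.ncard = m} := ⟨G, c, h, rfl⟩
  exact (Nat.sInf_le hmem).trans hm

/-! ### Rainbow triangles -/

theorem rainbow_three {V : Type} (G : SimpleGraph V) (c : Sym2 V → ℕ) :
    HasRainbow 3 G c ↔ ∃ x y z, G.Adj x y ∧ G.Adj x z ∧ G.Adj y z ∧ c s(x, y) ≠ c s(x, z) ∧
      c s(x, y) ≠ c s(y, z) ∧ c s(x, z) ≠ c s(y, z) := by
  constructor
  · rintro ⟨f, h1, h2⟩
    refine ⟨f 0, f 1, f 2, h1 _ _ (by decide), h1 _ _ (by decide), h1 _ _ (by decide), ?_, ?_, ?_⟩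
    · intro h; exact absurd (h2 0 1 0 2 (by decide) (by decide) h) (by decide)
    · intro h; exact absurd (h2 0 1 1 2 (by decide) (by decide) h) (by decide)
    · intro h; exact absurd (h2 0 2 1 2 (by decide) (by decide) h) (by decide)
  · rintro ⟨x, y, z, hxy, hxz, hyz, h1, h2, h3⟩
    refine ⟨⟨![x, y, z], ?_⟩, ?_, ?_⟩
    · intro i j h
      fin_cases i <;> fin_cases j <;> simp_all [hxy.ne, hxz.ne, hyz.ne, hxy.ne', hxz.ne', hyz.ne']
    · intro i j h
      fin_cases i <;> fin_cases j <;> first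
        | exact absurd rfl h
        | exact hxy
        | exact hxz
        | exact hyz
        | exact hxy.symm
        | exact hxz.symm
        | exact hyz.symm
    · intro i j k l hij hkl h
      fin_cases i <;> fin_cases j <;> fin_cases k <;> fin_cases l <;> first
        | exact ⟨rfl, rfl⟩
        | exact absurd hij (by decide)
        | exact absurd hkl (by decide)
        | exact absurd h h1
        | exact absurd h h2
        | exact absurd h h3
        | exact absurd h.symm h1
        | exact absurd h.symm h2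
        | exact absurd h.symm h3

/-- in a saturated coloured graph, a non-adjacent pair has a common neighbour avoiding any
given colour -/
theorem common_of_saturated {V : Type} [DecidableEq V] {G : SimpleGraph V} {c : Sym2 V → ℕ}
    (h : Saturated 3 G c) {u v : V} (huv : u ≠ v) (hadj : ¬ G.Adj u v) (α : ℕ) :
    ∃ w, G.Adj u w ∧ G.Adj v w ∧ c s(u, w) ≠ α := by
  obtain ⟨h0, h1⟩ := h
  have h2 := h1 u v huv hadj α
  rw [rainbow_three] at h0 h2
  push Not at h0
  obtain ⟨x, y, z, hxy, hxz, hyz, c1, c2, c3⟩ := h2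
  have key : ∀ a b w : V, (a = u ∧ b = v) ∨ (a = v ∧ b = u) → w ≠ u → w ≠ v →
      (G ⊔ SimpleGraph.edge u v).Adj a w → (G ⊔ SimpleGraph.edge u v).Adj b w →
      Function.update c s(u, v) α s(a, b) ≠ Function.update c s(u, v) α s(a, w) →
      Function.update c s(u, v) α s(a, b) ≠ Function.update c s(u, v) α s(b, w) →
      ∃ w, G.Adj u w ∧ G.Adj v w ∧ c s(u, w) ≠ α := by
    intro a b w hab hwu hwv ha hb e1 e2
    have hne : ∀ t : V, s(t, w) ≠ s(u, v) := by
      intro t ht
      rw [Sym2.eq_iff] at ht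
      rcases ht with ⟨_, h⟩ | ⟨_, h⟩
      · exact hwv h
      · exact hwu h
    have hadj' : ∀ t : V, (G ⊔ SimpleGraph.edge u v).Adj t w → G.Adj t w := by
      intro t ht
      rw [SimpleGraph.sup_adj, SimpleGraph.edge_adj] at ht
      rcases ht with h | ⟨h, -⟩
      · exact h
      · rcases h with ⟨_, h⟩ | ⟨_, h⟩
        · exact absurd h hwv
        · exact absurd h hwu
    rw [Function.update_of_ne (hne _)] at e1 e2
    rcases hab with ⟨rfl, rfl⟩ | ⟨rfl, rfl⟩
    · rw [Function.update_self] at e1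
      exact ⟨w, hadj' _ ha, hadj' _ hb, e1.symm⟩
    · rw [Sym2.eq_swap, Function.update_self] at e2
      exact ⟨w, hadj' _ hb, hadj' _ ha, e2.symm⟩
  have hx : ∀ a b : V, (G ⊔ SimpleGraph.edge u v).Adj a b → ¬ G.Adj a b →
      (a = u ∧ b = v) ∨ (a = v ∧ b = u) := by
    intro a b hab hn
    rw [SimpleGraph.sup_adj, SimpleGraph.edge_adj] at hab
    rcases hab with h | ⟨h, -⟩
    · exact absurd h hn
    · exact h
  have third : ∀ a b w : V, (a = u ∧ b = v) ∨ (a = v ∧ b = u) →
      (G ⊔ SimpleGraph.edge u v).Adj a w → (G ⊔ SimpleGraph.edge u v).Adj b w →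
      w ≠ u ∧ w ≠ v := by
    intro a b w hab ha hb
    rcases hab with ⟨rfl, rfl⟩ | ⟨rfl, rfl⟩
    · exact ⟨ha.ne', hb.ne'⟩
    · exact ⟨hb.ne', ha.ne'⟩
  by_cases hG1 : G.Adj x y
  · by_cases hG2 : G.Adj x z
    · by_cases hG3 : G.Adj y z
      · exfalso
        have hne : ∀ a b : V, G.Adj a b → s(a, b) ≠ s(u, v) := by
          intro a b hab ht
          rw [Sym2.eq_iff] at ht
          rcases ht with ⟨rfl, rfl⟩ | ⟨rfl, rfl⟩
          · exact hadj hab
          · exact hadj hab.symm
        rw [Function.update_of_ne (hne _ _ hG1), Function.update_of_ne (hne _ _ hG2)] at c1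
        rw [Function.update_of_ne (hne _ _ hG1), Function.update_of_ne (hne _ _ hG3)] at c2
        rw [Function.update_of_ne (hne _ _ hG2), Function.update_of_ne (hne _ _ hG3)] at c3
        exact c3 (h0 x y z hG1 hG2 hG3 c1 c2)
      · have hab := hx y z hyz hG3
        obtain ⟨k1, k2⟩ := third y z x hab hxy.symm hxz.symm
        refine key y z x hab k1 k2 hxy.symm hxz.symm ?_ ?_
        · rw [Sym2.eq_swap (a := y) (b := x)]; exact c2.symm
        · rw [Sym2.eq_swap (a := z) (b := x)]; exact c3.symm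
    · have hab := hx x z hxz hG2
      obtain ⟨k1, k2⟩ := third x z y hab hxy hyz.symm
      refine key x z y hab k1 k2 hxy hyz.symm ?_ ?_
      · exact c1.symm
      · rw [Sym2.eq_swap (a := z) (b := y)]; exact c3
  · have hab := hx x y hxy hG1
    obtain ⟨k1, k2⟩ := third x y z hab hxz hyz
    exact key x y z hab k1 k2 hxz hyz c1 c2

theorem two_common {V : Type} [DecidableEq V] {G : SimpleGraph V} {c : Sym2 V → ℕ}
    (h : Saturated 3 G c) {u v : V} (huv : u ≠ v) (hadj : ¬ G.Adj u v) :
    ∃ w w', w ≠ w' ∧ G.Adj u w ∧ G.Adj v w ∧ G.Adj u w' ∧ G.Adj v w' := by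
  obtain ⟨w, h1, h2, -⟩ := common_of_saturated h huv hadj 0
  obtain ⟨w', h3, h4, h5⟩ := common_of_saturated h huv hadj (c s(u, w))
  refine ⟨w, w', ?_, h1, h2, h3, h4⟩
  rintro rfl
  exact h5 rfl

/-! ### The lower bound -/

theorem two_mul_edges {n : ℕ} (G : SimpleGraph (Fin n)) [DecidableRel G.Adj] :
    2 * G.edgeSet.ncard = ∑ v, G.degree v := by
  rw [SimpleGraph.sum_degrees_eq_twice_card_edges, ← SimpleGraph.coe_edgeFinset,
    Set.ncard_coe_finset]

theorem lower {n : ℕ} (hn : 4 ≤ n) (G : SimpleGraph (Fin n)) (c : Sym2 (Fin n) → ℕ)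
    (h : Saturated 3 G c) : 2 * n - 4 ≤ G.edgeSet.ncard := by
  classical
  have h2e := two_mul_edges G
  have : Nonempty (Fin n) := ⟨⟨0, by omega⟩⟩
  obtain ⟨v, hv⟩ := G.exists_minimal_degree_vertex
  set δ := G.degree v with hδ
  have hmin : ∀ u, δ ≤ G.degree u := fun u => hv ▸ G.minDegree_le_degree u
  have hcard : (univ : Finset (Fin n)).card = n := by simp
  -- the easy bound
  have hb1 : n * δ ≤ ∑ u, G.degree u := by
    calc n * δ = ∑ _u : Fin n, δ := by simp
      _ ≤ _ := Finset.sum_le_sum fun u _ => hmin u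
  -- the closed neighbourhood and the rest
  set N := G.neighborFinset v with hN
  set R := (univ : Finset (Fin n)) \ insert v N with hR
  have hvN : v ∉ N := by simp [hN]
  have hNc : N.card = δ := G.card_neighborFinset_eq_degree v
  have hRc : R.card + (δ + 1) = n := by
    rw [hR, Finset.card_sdiff_of_subset (Finset.subset_univ _), Finset.card_insert_of_notMem hvN,
      hNc, hcard]
    have : (insert v N).card ≤ n := by
      have := Finset.card_le_univ (insert v N)
      simpa using this
    rw [Finset.card_insert_of_notMem hvN, hNc] at this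
    omega
  have hcommon : ∀ t ∈ R, 2 ≤ (N.filter (fun w => G.Adj t w)).card := by
    intro t ht
    rw [hR, Finset.mem_sdiff, Finset.mem_insert, not_or] at ht
    obtain ⟨-, ht1, ht2⟩ := ht
    have hnadj : ¬ G.Adj t v := by
      intro h'
      exact ht2 (by rw [hN, SimpleGraph.mem_neighborFinset]; exact h'.symm)
    obtain ⟨w, w', hww, a1, a2, a3, a4⟩ := two_common h ht1 hnadj
    have hsub : ({w, w'} : Finset (Fin n)) ⊆ N.filter (fun w => G.Adj t w) := by
      intro y hy
      rw [Finset.mem_insert, Finset.mem_singleton] at hy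
      rw [Finset.mem_filter, hN, SimpleGraph.mem_neighborFinset]
      rcases hy with rfl | rfl
      · exact ⟨a2, a1⟩
      · exact ⟨a4, a3⟩
    calc 2 = ({w, w'} : Finset (Fin n)).card := (Finset.card_pair hww).symm
      _ ≤ _ := Finset.card_le_card hsub
  have hN2 : δ + 2 * R.card ≤ ∑ w ∈ N, G.degree w := by
    have h1 : ∀ w ∈ N, 1 + (R.filter (fun t => G.Adj t w)).card ≤ G.degree w := by
      intro w hw
      rw [← G.card_neighborFinset_eq_degree w]
      have hvR : v ∉ R.filter (fun t => G.Adj t w) := by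
        rw [Finset.mem_filter, hR, Finset.mem_sdiff, Finset.mem_insert]
        tauto
      calc 1 + (R.filter (fun t => G.Adj t w)).card
          = (insert v (R.filter (fun t => G.Adj t w))).card := by
            rw [Finset.card_insert_of_notMem hvR]; omega
        _ ≤ (G.neighborFinset w).card := by
            apply Finset.card_le_card
            intro y hy
            rw [Finset.mem_insert, Finset.mem_filter] at hy
            rw [SimpleGraph.mem_neighborFinset]
            rcases hy with rfl | ⟨-, hy⟩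
            · rw [hN, SimpleGraph.mem_neighborFinset] at hw; exact hw.symm
            · exact hy.symm
    calc δ + 2 * R.card = ∑ _w ∈ N, 1 + ∑ _t ∈ R, 2 := by simp [hNc, mul_comm]
      _ ≤ ∑ _w ∈ N, 1 + ∑ t ∈ R, (N.filter (fun w => G.Adj t w)).card := by
          have := Finset.sum_le_sum hcommon
          omega
      _ = ∑ _w ∈ N, 1 + ∑ w ∈ N, (R.filter (fun t => G.Adj t w)).card := by
          congr 1
          simp only [Finset.card_filter]
          exact Finset.sum_comm
      _ = ∑ w ∈ N, (1 + (R.filter (fun t => G.Adj t w)).card) := by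
          rw [Finset.sum_add_distrib]
      _ ≤ _ := Finset.sum_le_sum h1
  have hR2 : R.card * δ ≤ ∑ t ∈ R, G.degree t := by
    calc R.card * δ = ∑ _t ∈ R, δ := by simp
      _ ≤ _ := Finset.sum_le_sum fun u _ => hmin u
  have htot : ∑ u, G.degree u = δ + ∑ w ∈ N, G.degree w + ∑ t ∈ R, G.degree t := by
    rw [hR, ← Finset.sum_sdiff (Finset.subset_univ (insert v N)),
      Finset.sum_insert hvN]
    omega
  -- the minimum degree is at least two
  have hδ2 : 2 ≤ δ := by
    by_contra hlt
    have hRpos : 0 < R.card := by omega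
    obtain ⟨t, ht⟩ := Finset.card_pos.1 hRpos
    have h1 := hcommon t ht
    have h2 : (N.filter (fun w => G.Adj t w)).card ≤ N.card := Finset.card_filter_le _ _
    omega
  rcases Nat.lt_or_ge δ 4 with hlt | hge
  · have : δ = 2 ∨ δ = 3 := by omega
    rcases this with h' | h'
    · rw [h'] at htot hN2 hR2 hRc
      omega
    · rw [h'] at htot hN2 hR2 hRc hb1
      omega
  · have : n * 4 ≤ n * δ := Nat.mul_le_mul_left n hge
    omega

/-! ### The construction -/

/-- the complete bipartite graph between `{0, 1}` and the other vertices -/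
def hub (n : ℕ) : SimpleGraph (Fin n) where
  Adj u v := (u.1 < 2 ∧ 2 ≤ v.1) ∨ (v.1 < 2 ∧ 2 ≤ u.1)
  symm := ⟨fun u v h => by tauto⟩
  loopless := ⟨fun u h => by omega⟩

theorem hub_edges (n : ℕ) (hn : 4 ≤ n) : (hub n).edgeSet.ncard ≤ 2 * n - 4 := by
  classical
  set A := (univ : Finset (Fin n)).filter (fun v => v.1 < 2) with hA
  set B := (univ : Finset (Fin n)).filter (fun v => ¬ v.1 < 2) with hB
  have hAc : A.card = 2 := by
    rw [hA, Fin.card_filter_val_lt]; omega
  have hBc : B.card = n - 2 := by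
    have := Finset.card_filter_add_card_filter_not (s := (univ : Finset (Fin n)))
      (p := fun v => v.1 < 2)
    rw [← hA, ← hB, hAc] at this
    simp at this
    omega
  have hsub : (hub n).edgeSet ⊆ ((A ×ˢ B).image (fun p => s(p.1, p.2)) : Finset (Sym2 (Fin n))) := by
    intro e he
    induction e with
    | _ u v =>
      rw [SimpleGraph.mem_edgeSet] at he
      rw [Finset.mem_coe, Finset.mem_image]
      rcases he with ⟨h1, h2⟩ | ⟨h1, h2⟩
      · exact ⟨(u, v), by simp [hA, hB]; omega, rfl⟩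
      · exact ⟨(v, u), by simp [hA, hB]; omega, Sym2.eq_swap⟩
  calc (hub n).edgeSet.ncard ≤ ((A ×ˢ B).image (fun p => s(p.1, p.2))).card := by
        rw [← Set.ncard_coe_finset]
        exact Set.ncard_le_ncard hsub (Finset.finite_toSet _)
    _ ≤ (A ×ˢ B).card := Finset.card_image_le
    _ = 2 * (n - 2) := by rw [Finset.card_product, hAc, hBc]
    _ = 2 * n - 4 := by omega

theorem hub_saturated (n : ℕ) (hn : 4 ≤ n) :
    ∃ c : Sym2 (Fin n) → ℕ, Saturated 3 (hub n) c := by
  classical
  let e := Fintype.equivFin (Sym2 (Fin n))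
  have hinj : Function.Injective (fun x : Sym2 (Fin n) => (e x : ℕ)) :=
    fun x y h => e.injective (Fin.ext h)
  refine ⟨fun x => (e x : ℕ), ?_, ?_⟩
  · rw [rainbow_three]
    rintro ⟨x, y, z, hxy, hxz, hyz, -⟩
    rcases hxy with hxy | hxy <;> rcases hxz with hxz | hxz <;> rcases hyz with hyz | hyz <;> omega
  · intro u v huv hadj α
    rw [rainbow_three]
    -- a common neighbour whose two edges avoid the colour
    have hcn : ∀ w w' : Fin n, w ≠ w' → (hub n).Adj u w → (hub n).Adj v w → (hub n).Adj u w' →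
        (hub n).Adj v w' → ∃ w, (hub n).Adj u w ∧ (hub n).Adj v w ∧
          (e s(u, w) : ℕ) ≠ α ∧ (e s(v, w) : ℕ) ≠ α := by
      intro w w' hww h1 h2 h3 h4
      by_cases ha : (e s(u, w) : ℕ) ≠ α ∧ (e s(v, w) : ℕ) ≠ α
      · exact ⟨w, h1, h2, ha⟩
      · refine ⟨w', h3, h4, ?_, ?_⟩
        · intro hc
          apply ha
          constructor
          · intro hd
            have := hinj (hd.trans hc.symm)
            rw [Sym2.eq_iff] at this
            rcases this with ⟨_, h⟩ | ⟨h, h'⟩
            · exact hww h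
            · exact h3.ne h
          · intro hd
            have := hinj (hd.trans hc.symm)
            rw [Sym2.eq_iff] at this
            rcases this with ⟨h, _⟩ | ⟨h, h'⟩
            · exact huv h.symm
            · exact h4.ne h
        · intro hc
          apply ha
          constructor
          · intro hd
            have := hinj (hd.trans hc.symm)
            rw [Sym2.eq_iff] at this
            rcases this with ⟨h, _⟩ | ⟨h, h'⟩
            · exact huv h
            · exact h3.ne h
          · intro hd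
            have := hinj (hd.trans hc.symm)
            rw [Sym2.eq_iff] at this
            rcases this with ⟨_, h⟩ | ⟨h, h'⟩
            · exact hww h
            · exact h4.ne h
    have hex : ∃ w, (hub n).Adj u w ∧ (hub n).Adj v w ∧
          (e s(u, w) : ℕ) ≠ α ∧ (e s(v, w) : ℕ) ≠ α := by
      have hn' : ¬ ((u.1 < 2 ∧ 2 ≤ v.1) ∨ (v.1 < 2 ∧ 2 ≤ u.1)) := hadj
      rcases Nat.lt_or_ge u.1 2 with hu | hu
      · have hv : v.1 < 2 := by omega
        refine hcn ⟨2, by omega⟩ ⟨3, by omega⟩ (by simp) ?_ ?_ ?_ ?_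
        · exact Or.inl ⟨hu, le_rfl⟩
        · exact Or.inl ⟨hv, le_rfl⟩
        · exact Or.inl ⟨hu, by norm_num⟩
        · exact Or.inl ⟨hv, by norm_num⟩
      · have hv : 2 ≤ v.1 := by omega
        refine hcn ⟨0, by omega⟩ ⟨1, by omega⟩ (by simp) ?_ ?_ ?_ ?_
        · exact Or.inr ⟨by norm_num, hu⟩
        · exact Or.inr ⟨by norm_num, hv⟩
        · exact Or.inr ⟨by norm_num, hu⟩
        · exact Or.inr ⟨by norm_num, hv⟩
    obtain ⟨w, h1, h2, h3, h4⟩ := hex
    have hne1 : s(u, w) ≠ s(u, v) := by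
      intro ht
      rw [Sym2.eq_iff] at ht
      rcases ht with ⟨_, h⟩ | ⟨h, _⟩
      · exact h2.ne h.symm
      · exact huv h
    have hne2 : s(v, w) ≠ s(u, v) := by
      intro ht
      rw [Sym2.eq_iff] at ht
      rcases ht with ⟨h, _⟩ | ⟨_, h⟩
      · exact huv h.symm
      · exact h1.ne h.symm
    refine ⟨u, v, w, ?_, ?_, ?_, ?_, ?_, ?_⟩
    · rw [SimpleGraph.sup_adj, SimpleGraph.edge_adj]
      exact Or.inr ⟨Or.inl ⟨rfl, rfl⟩, huv⟩
    · rw [SimpleGraph.sup_adj]; exact Or.inl h1
    · rw [SimpleGraph.sup_adj]; exact Or.inl h2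
    · rw [Function.update_self, Function.update_of_ne hne1]; exact h3.symm
    · rw [Function.update_self, Function.update_of_ne hne2]; exact h4.symm
    · rw [Function.update_of_ne hne1, Function.update_of_ne hne2]
      intro hc
      have := hinj hc
      rw [Sym2.eq_iff] at this
      rcases this with ⟨h, _⟩ | ⟨h, _⟩
      · exact huv h
      · exact h1.ne h

theorem sat_three (n : ℕ) (hn : 4 ≤ n) : sat n 3 = 2 * n - 4 := by
  apply le_antisymm
  · obtain ⟨c, hc⟩ := hub_saturated n hn
    exact sat_le (hub n) c hc (hub_edges n hn)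
  · obtain ⟨G, c, h, he⟩ := sat_mem n 3 le_rfl
    rw [← he]
    exact lower hn G c h

/-- for at most three vertices a saturated graph is complete -/
theorem complete_of_small {n : ℕ} (hn : n ≤ 3) (G : SimpleGraph (Fin n)) (c : Sym2 (Fin n) → ℕ)
    (h : Saturated 3 G c) : G = ⊤ := by
  ext u v
  rw [SimpleGraph.top_adj]
  refine ⟨fun h' => h'.ne, fun huv => ?_⟩
  by_contra hadj
  obtain ⟨w, w', hww, a1, a2, a3, a4⟩ := two_common h huv hadj
  have h1 := a1.ne; have h2 := a2.ne; have h3 := a3.ne; have h4 := a4.ne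
  have hv : ∀ a b : Fin n, a ≠ b → a.1 ≠ b.1 := fun a b hab h => hab (Fin.ext h)
  have k1 := hv _ _ huv
  have k2 := hv _ _ hww
  have k3 := hv _ _ h1
  have k4 := hv _ _ h2
  have k5 := hv _ _ h3
  have k6 := hv _ _ h4
  have l1 := u.2
  have l2 := v.2
  have l3 := w.2
  have l4 := w'.2
  omega

theorem top_edges (n : ℕ) : (⊤ : SimpleGraph (Fin n)).edgeSet.ncard = n.choose 2 := by
  classical
  rw [← SimpleGraph.coe_edgeFinset, Set.ncard_coe_finset,
    SimpleGraph.card_edgeFinset_top_eq_card_choose_two, Fintype.card_fin]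

theorem sat_small (n : ℕ) (hn : n ≤ 3) : sat n 3 = n.choose 2 := by
  obtain ⟨G, c, h, he⟩ := sat_mem n 3 le_rfl
  rw [← he, complete_of_small hn G c h, top_edges]

/-- The rainbow saturation number of the triangle with an unlimited palette: it is `2 n - 4` for
all `n ≥ 4`, and `n (n - 1) / 2` for `n ≤ 3`.  Hence there is no constant `C` such that
`sat n 3 = 2 n + C` for all `n ≥ 2`, and the statement of Q1 (all `r ≥ 3`, all
`n ≥ 2 (r - 2)`) fails. -/
theorem result :
    (∀ n, 4 ≤ n → sat n 3 = 2 * n - 4) ∧ (∀ n, n ≤ 3 → sat n 3 = n.choose 2) ∧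
    ¬ (∀ r : ℕ, 3 ≤ r → ∃ C : ℤ, ∀ n : ℕ, 2 * (r - 2) ≤ n →
      (sat n r : ℤ) = 2 * ((r : ℤ) - 2) * n + C) := by
  refine ⟨sat_three, sat_small, ?_⟩
  intro h
  obtain ⟨C, hC⟩ := h 3 le_rfl
  have h2 := hC 2 (by norm_num)
  have h4 := hC 4 (by norm_num)
  rw [sat_small 2 (by norm_num)] at h2
  rw [sat_three 4 le_rfl] at h4
  norm_num at h2 h4
  omega

end Pool.Agent.Results.MP_44a765_co.TriangleCase
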